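import Pool.Agent.UL4.Stmts

/-!
Squad UL4, row CNG: the profile is continuous.
-/

set_option autoImplicit false

namespace Pool.Agent.UL4.H2

open MeasureTheory Set Pool.Agent.UL3 Pool.Agent.UL4

/-- a nonnegative concave function on an interval which is upper semicontinuous is continuous -/
theorem contOn_of_concave (F : ℝ → ℝ) (w : ℝ) (hc : ConcaveOn ℝ (Icc 0 w) F)
    (h0 : ∀ t, 0 ≤ F t) (hu : UpperSemicontinuous F) : ContinuousOn F (Icc 0 w) := by
  intro t₀ ht₀
  refine tendsto_order.2 ⟨?_, ?_⟩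
  · intro y hy
    obtain ⟨c, hc0, hc1, hc2⟩ : ∃ c : ℝ, 0 < c ∧ (t₀ < w → c ≤ w - t₀) ∧ (0 < t₀ → c ≤ t₀) := by
      by_cases h1 : t₀ < w
      · by_cases h2 : 0 < t₀
        · exact ⟨min (w - t₀) t₀, lt_min (by linarith) h2, fun _ => min_le_left _ _,
            fun _ => min_le_right _ _⟩
        · exact ⟨w - t₀, by linarith, fun _ => le_rfl, fun h => absurd h h2⟩
      · by_cases h2 : 0 < t₀
        · exact ⟨t₀, h2, fun h => absurd h h1, fun _ => le_rfl⟩
        · exact ⟨1, one_pos, fun h => absurd h h1, fun h => absurd h h2⟩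
    have hG : ∀ t ∈ Icc 0 w, F t₀ * (1 - |t - t₀| / c) ≤ F t := by
      intro t ht
      rcases lt_trichotomy t t₀ with h1 | h1 | h1
      · have h2 : 0 < t₀ := lt_of_le_of_lt ht.1 h1
        have h3 := hc2 h2
        have hl0 : 0 ≤ (t₀ - t) / t₀ := div_nonneg (by linarith) h2.le
        have hl1 : (t₀ - t) / t₀ ≤ 1 := by
          rw [div_le_one h2]
          linarith [ht.1]
        have ha : (0 : ℝ) ≤ 1 - (t₀ - t) / t₀ := by linarith
        have hab : (1 - (t₀ - t) / t₀) + (t₀ - t) / t₀ = 1 := by ring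
        have h4 := hc.2 ht₀ (left_mem_Icc.2 (ht.1.trans ht.2)) ha hl0 hab
        have h5 : (1 - (t₀ - t) / t₀) • t₀ + ((t₀ - t) / t₀) • (0 : ℝ) = t := by
          simp only [smul_eq_mul]
          field_simp
          ring
        rw [h5] at h4
        simp only [smul_eq_mul] at h4
        have h6 : |t - t₀| = t₀ - t := by rw [abs_of_neg (by linarith)]; ring
        have h7 : (t₀ - t) / t₀ ≤ (t₀ - t) / c := div_le_div_of_nonneg_left (by linarith) hc0 h3
        have h8 : 0 ≤ (t₀ - t) / t₀ * F 0 := mul_nonneg hl0 (h0 0)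
        rw [h6]
        have h9 : F t₀ * (1 - (t₀ - t) / c) ≤ F t₀ * (1 - (t₀ - t) / t₀) :=
          mul_le_mul_of_nonneg_left (by linarith) (h0 t₀)
        linarith
      · rw [h1]
        simp
      · have h2 : t₀ < w := lt_of_lt_of_le h1 ht.2
        have h3 := hc1 h2
        have hw : 0 < w - t₀ := by linarith
        have hl0 : 0 ≤ (t - t₀) / (w - t₀) := div_nonneg (by linarith) hw.le
        have hl1 : (t - t₀) / (w - t₀) ≤ 1 := by
          rw [div_le_one hw]
          linarith [ht.2]
        have ha : (0 : ℝ) ≤ 1 - (t - t₀) / (w - t₀) := by linarith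
        have hab : (1 - (t - t₀) / (w - t₀)) + (t - t₀) / (w - t₀) = 1 := by ring
        have h4 := hc.2 ht₀ (right_mem_Icc.2 (ht.1.trans ht.2)) ha hl0 hab
        have h5 : (1 - (t - t₀) / (w - t₀)) • t₀ + ((t - t₀) / (w - t₀)) • w = t := by
          simp only [smul_eq_mul]
          field_simp
          ring
        rw [h5] at h4
        simp only [smul_eq_mul] at h4
        have h6 : |t - t₀| = t - t₀ := abs_of_pos (by linarith)
        have h7 : (t - t₀) / (w - t₀) ≤ (t - t₀) / c :=
          div_le_div_of_nonneg_left (by linarith) hc0 h3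
        have h8 : 0 ≤ (t - t₀) / (w - t₀) * F w := mul_nonneg hl0 (h0 w)
        rw [h6]
        have h9 : F t₀ * (1 - (t - t₀) / c) ≤ F t₀ * (1 - (t - t₀) / (w - t₀)) :=
          mul_le_mul_of_nonneg_left (by linarith) (h0 t₀)
        linarith
    have hcont : Filter.Tendsto (fun t => F t₀ * (1 - |t - t₀| / c)) (nhdsWithin t₀ (Icc 0 w))
        (nhds (F t₀ * (1 - |t₀ - t₀| / c))) := by
      apply Continuous.continuousWithinAt
      fun_prop
    have h1 : F t₀ * (1 - |t₀ - t₀| / c) = F t₀ := by simp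
    rw [h1] at hcont
    filter_upwards [hcont.eventually_const_lt hy, self_mem_nhdsWithin] with t h2 h3
    exact h2.trans_le (hG t h3)
  · intro y hy
    exact (hu t₀ y hy).filter_mono nhdsWithin_le_nhds

theorem cng (hCCG : CcgStmt) (hUSC : UscStmt) : CngStmt := by
  intro K w hK hw
  refine contOn_of_concave _ w (hCCG K w hK hw) (fun t => Real.sqrt_nonneg _) ?_
  exact Real.continuous_sqrt.comp_upperSemicontinuous (hUSC K hK.1) Real.sqrt_monotone

end Pool.Agent.UL4.H2
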